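import Pool.Agent.W2helper16.GL.Stm

/-! # Project GL, piece BAS: a homogeneous basis of an involution -/

set_option autoImplicit false

namespace Pool.Agent.W2helper88.GL

universe u v

open Pool.Agent.W2helper16.GL

theorem p_bas : StmBAS.{u, v} := by
  classical
  intro K _ _ V _ _ _ s hs
  have h2 : (2 : K) ≠ 0 := two_ne_zero
  have hss : ∀ v, s (s v) = v := fun v => by
    have := congrArg (fun f : Module.End K V => f v) hs
    simpa using this
  set U : Submodule K V := LinearMap.ker (s - 1) with hU
  set W : Submodule K V := LinearMap.ker (s + 1) with hW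
  have hmU : ∀ v, v ∈ U ↔ s v = v := by
    intro v
    rw [hU, LinearMap.mem_ker, LinearMap.sub_apply, Module.End.one_apply, sub_eq_zero]
  have hmW : ∀ v, v ∈ W ↔ s v = -v := by
    intro v
    rw [hW, LinearMap.mem_ker, LinearMap.add_apply, Module.End.one_apply, add_eq_zero_iff_eq_neg]
  have hc : IsCompl U W := by
    constructor
    · rw [Submodule.disjoint_def]
      intro v hv hw
      have h1 := (hmU v).mp hv
      have h3 := (hmW v).mp hw
      have h4 : (2 : K) • v = 0 := by
        rw [two_smul]
        nth_rewrite 1 [← h1]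
        rw [h3]
        simp
      exact (smul_eq_zero.mp h4).resolve_left h2
    · rw [codisjoint_iff]
      refine eq_top_iff.mpr fun v _ => ?_
      rw [Submodule.mem_sup]
      refine ⟨(2 : K)⁻¹ • (v + s v), ?_, (2 : K)⁻¹ • (v - s v), ?_, ?_⟩
      · rw [hmU, map_smul, map_add, hss, add_comm]
      · rw [hmW, map_smul, map_sub, hss, ← smul_neg, neg_sub]
      · rw [← smul_add]
        have : v + s v + (v - s v) = (2 : K) • v := by rw [two_smul]; abel
        rw [this, smul_smul, inv_mul_cancel₀ h2, one_smul]
  let bU := Module.finBasis K U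
  let bW := Module.finBasis K W
  let b : Module.Basis (Fin (Module.finrank K U) ⊕ Fin (Module.finrank K W)) K V :=
    (bU.prod bW).map (Submodule.prodEquivOfIsCompl U W hc)
  have hb1 : ∀ a, s (b (Sum.inl a)) = b (Sum.inl a) := by
    intro a
    have : b (Sum.inl a) = (bU a : V) := by simp [b]
    rw [this]
    exact (hmU _).mp (bU a).2
  have hb2 : ∀ x, s (b (Sum.inr x)) = -b (Sum.inr x) := by
    intro x
    have : b (Sum.inr x) = (bW x : V) := by simp [b]
    rw [this]
    exact (hmW _).mp (bW x).2
  refine ⟨_, _, b, hb1, hb2, ?_⟩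
  rw [LinearMap.trace_eq_matrix_trace K b, Matrix.trace, Fintype.sum_sum_type]
  simp only [Matrix.diag_apply, LinearMap.toMatrix_apply, hb1, hb2, map_neg,
    Module.Basis.repr_self, Finsupp.neg_apply, Finsupp.single_eq_same]
  simp [sub_eq_add_neg]

end Pool.Agent.W2helper88.GL
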